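import Pool.Agent.H77.ChowExample

namespace Pool.Agent.Results.MP_0b1547_co.KoszulNonRealRooted

open H77.Chow

/-- There are a loopless matroid `M` on seven elements and a building set `𝒢` on its lattice of
flats whose Chow ring `D(M, 𝒢)` is Koszul and has the Hilbert series
`1 + 11x + 39x² + 59x³ + 39x⁴ + 11x⁵ + x⁶`, and this Hilbert series has a non-real zero. -/
theorem result :
    ∃ (M : Matroid (Fin 7)) (𝒢 : Set (Set (Fin 7))),
      M.Loopless ∧ IsBuildingSet M 𝒢 ∧ IsKoszul (chowPiece M 𝒢) ∧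
      ∃ H : Polynomial ℂ,
        (∀ i, H.coeff i = (Module.finrank ℚ (chowPiece M 𝒢 i) : ℂ)) ∧
        (∀ i, Module.finrank ℚ (chowPiece M 𝒢 i) =
          ([1, 11, 39, 59, 39, 11, 1] : List ℕ).getD i 0) ∧
        ∃ z : ℂ, z.im ≠ 0 ∧ H.eval z = 0 := by
  refine ⟨Data.M7, Data.bset, ⟨by simp [Matroid.loops]⟩, Data.bset_isBuildingSet, Data.koszul, ?_⟩
  obtain ⟨z, hz, hz0⟩ := exists_nonreal_root
  refine ⟨∑ i ∈ Finset.range 7,
    Polynomial.C ((([1, 11, 39, 59, 39, 11, 1] : List ℕ).getD i 0 : ℕ) : ℂ) * Polynomial.X ^ i,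
    ?_, Data.hilb, z, hz, ?_⟩
  · intro i
    rw [Data.hilb, Polynomial.finsetSum_coeff]
    simp only [Polynomial.coeff_C_mul_X_pow]
    rw [Finset.sum_ite_eq]
    split_ifs with h
    · rfl
    · have h7 : 7 ≤ i := by simpa using h
      rw [List.getD_eq_default _ _ (by simpa using h7), Nat.cast_zero]
  · rw [Polynomial.eval_finsetSum]
    simp only [Polynomial.eval_mul, Polynomial.eval_C, Polynomial.eval_pow, Polynomial.eval_X,
      Finset.sum_range_succ, Finset.sum_range_zero]
    norm_num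
    linear_combination hz0

end Pool.Agent.Results.MP_0b1547_co.KoszulNonRealRooted
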